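import Mathlib

/-!
Derivations, and the generic curve: if many derivations kill the coefficients of a polynomial then
it does not vanish on a curve whose coefficients are moved by these derivations.
-/

set_option autoImplicit false

namespace Pool.Agent.Y653

section Der

variable {K R : Type*} [CommRing K] [CommRing R] [Algebra K R]

/-- the derivation of `R[y]` which acts on the coefficients -/
noncomputable def cD (D : Derivation K R R) : Derivation K (Polynomial R) (Polynomial R) :=
  PolynomialModule.equivPolynomialSelf.compDer D.mapCoeffs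

theorem cD_coeff (D : Derivation K R R) (n : ℕ) (p : Polynomial R) :
    (cD D p).coeff n = D (p.coeff n) := rfl

theorem cD_C (D : Derivation K R R) (x : R) : cD D (Polynomial.C x) = Polynomial.C (D x) := by
  ext n
  rw [cD_coeff, Polynomial.coeff_C, Polynomial.coeff_C]
  split_ifs
  · rfl
  · exact map_zero D

theorem cD_X_pow (D : Derivation K R R) (m : ℕ) : cD D (Polynomial.X ^ m : Polynomial R) = 0 := by
  ext n
  rw [cD_coeff, Polynomial.coeff_X_pow, Polynomial.coeff_zero]
  split_ifs
  · exact D.map_one_eq_zero
  · exact map_zero D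

theorem cD_C_mul_X_pow (D : Derivation K R R) (x : R) (m : ℕ) :
    cD D (Polynomial.C x * Polynomial.X ^ m) = Polynomial.C (D x) * Polynomial.X ^ m := by
  rw [Derivation.leibniz, cD_X_pow, cD_C, smul_zero, zero_add, smul_eq_mul, mul_comm]

end Der

section Chain

variable {σ : Type*} [Fintype σ]

theorem chain {K B : Type*} [CommRing K] [CommRing B] [Algebra K B] (D : Derivation K B B)
    (p : σ → B) (P : MvPolynomial σ K) :
    D (MvPolynomial.aeval p P) = ∑ i, MvPolynomial.aeval p (MvPolynomial.pderiv i P) * D (p i) := by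
  classical
  induction P using MvPolynomial.induction_on with
  | C a =>
    rw [← MvPolynomial.algebraMap_eq, AlgHom.commutes, Derivation.map_algebraMap]
    symm
    refine Finset.sum_eq_zero fun i _ => ?_
    rw [MvPolynomial.algebraMap_eq, MvPolynomial.pderiv_C, map_zero, zero_mul]
  | add P Q hP hQ =>
    rw [map_add, map_add, hP, hQ, ← Finset.sum_add_distrib]
    refine Finset.sum_congr rfl fun i _ => ?_
    rw [map_add, map_add, add_mul]
  | mul_X P i hP =>
    rw [map_mul, MvPolynomial.aeval_X, Derivation.leibniz, hP, smul_eq_mul, smul_eq_mul,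
      Finset.mul_sum]
    have h1 : ∀ j, MvPolynomial.aeval p (MvPolynomial.pderiv j (P * MvPolynomial.X i)) * D (p j) =
        (if j = i then MvPolynomial.aeval p P * D (p i) else 0) +
          p i * (MvPolynomial.aeval p (MvPolynomial.pderiv j P) * D (p j)) := by
      intro j
      rw [MvPolynomial.pderiv_mul, map_add, map_mul, map_mul, MvPolynomial.aeval_X,
        MvPolynomial.pderiv_X]
      by_cases h : j = i
      · subst h
        rw [Pi.single_eq_same, if_pos rfl, map_one]
        ring
      · rw [Pi.single_eq_of_ne (Ne.symm h), if_neg h, map_zero]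
        ring
    rw [Finset.sum_congr rfl fun j _ => h1 j, Finset.sum_add_distrib, Finset.sum_ite_eq',
      if_pos (Finset.mem_univ i)]

/-- the chain rule for polynomials whose coefficients are killed -/
theorem chain_const {K R B : Type*} [CommRing K] [CommRing R] [CommRing B] [Algebra K B]
    (D : Derivation K B B) (φ : R →+* B) (p : σ → B) (F : MvPolynomial σ R)
    (hF : ∀ m, D (φ (F.coeff m)) = 0) :
    D (MvPolynomial.eval₂ φ p F) =
      ∑ i, MvPolynomial.eval₂ φ p (MvPolynomial.pderiv i F) * D (p i) := by
  classical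
  have h1 : ∀ m ∈ F.support, D (MvPolynomial.eval₂ φ p (MvPolynomial.monomial m (F.coeff m))) =
      ∑ i, MvPolynomial.eval₂ φ p (MvPolynomial.pderiv i
        (MvPolynomial.monomial m (F.coeff m))) * D (p i) := by
    intro m _
    have h2 := chain D p (MvPolynomial.monomial m (1 : K))
    rw [MvPolynomial.aeval_monomial, map_one, one_mul] at h2
    rw [MvPolynomial.eval₂_monomial, Derivation.leibniz, hF m, smul_zero, add_zero, h2,
      smul_eq_mul, Finset.mul_sum]
    refine Finset.sum_congr rfl fun i _ => ?_
    rw [MvPolynomial.pderiv_monomial, MvPolynomial.pderiv_monomial, MvPolynomial.aeval_monomial,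
      MvPolynomial.eval₂_monomial, one_mul, map_mul, map_natCast, map_natCast]
    ring
  conv_lhs => rw [F.as_sum]
  rw [← MvPolynomial.coe_eval₂Hom, map_sum, map_sum]
  simp only [MvPolynomial.coe_eval₂Hom]
  rw [Finset.sum_congr rfl h1, Finset.sum_comm]
  refine Finset.sum_congr rfl fun i _ => ?_
  rw [← Finset.sum_mul]
  congr 1
  conv_rhs => rw [F.as_sum]
  rw [map_sum, ← MvPolynomial.coe_eval₂Hom, map_sum]

end Chain

section Alternant

theorem perm_eq_one {g : ℕ} (τ : Equiv.Perm (Fin g)) (h : Monotone τ) : τ = 1 := by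
  have h1 : StrictMono τ := h.strictMono_of_injective τ.injective
  ext i
  have h2 : (⟨τ, by
      intro a b
      exact h1.le_iff_le⟩ : Fin g ≃o Fin g) = OrderIso.refl _ := Subsingleton.elim _ _
  have h3 := congrArg (fun f : Fin g ≃o Fin g => (f i : ℕ)) h2
  simpa using h3

theorem alternant {R : Type*} [CommRing R] [IsDomain R] {g : ℕ} (N : Matrix (Fin g) (Fin g)
    (Polynomial R)) (e i : Fin g → ℕ) (he : StrictMono e) (hi : StrictMono i)
    (h0 : ∀ k q, N k q ≠ 0) (hd : ∀ k q, (N k q).natDegree = e k * i q) : N.det ≠ 0 := by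
  classical
  intro hdet
  have h1 := congrArg (fun P => Polynomial.coeff P (∑ q, e q * i q)) hdet
  simp only [Polynomial.coeff_zero, Matrix.det_apply, Polynomial.finset_sum_coeff] at h1
  rw [Finset.sum_eq_single (1 : Equiv.Perm (Fin g))] at h1
  · rw [Equiv.Perm.sign_one, one_smul] at h1
    simp only [Equiv.Perm.one_apply] at h1
    have h2 : (∏ q, N q q).natDegree = ∑ q, e q * i q := by
      rw [Polynomial.natDegree_prod _ _ fun q _ => h0 q q]
      exact Finset.sum_congr rfl fun q _ => hd q q
    rw [← h2] at h1
    change (∏ q, N q q).leadingCoeff = 0 at h1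
    rw [Polynomial.leadingCoeff_eq_zero, Finset.prod_eq_zero_iff] at h1
    obtain ⟨q, -, hq⟩ := h1
    exact h0 q q hq
  · intro τ _ hτ
    rw [Units.smul_def, Polynomial.coeff_smul]
    have h3 : (∏ q, N (τ q) q).coeff (∑ q, e q * i q) = 0 := by
      apply Polynomial.coeff_eq_zero_of_natDegree_lt
      rw [Polynomial.natDegree_prod _ _ fun q _ => h0 _ q]
      simp only [hd]
      have hm : Monovary e i := by
        intro a b hab
        exact he.monotone (hi.lt_iff_lt.1 hab).le
      rw [hm.sum_comp_perm_mul_lt_sum_mul_iff]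
      intro hc
      apply hτ
      apply perm_eq_one
      intro a b hab
      rcases hab.eq_or_lt with rfl | hlt
      · exact le_rfl
      · exact he.le_iff_le.1 (hc (hi hlt))
    rw [h3, smul_zero]
  · intro h
    exact absurd (Finset.mem_univ _) h

end Alternant

section Core

variable {K R : Type*} [CommRing K] [CommRing R] [IsDomain R] [CharZero R] [Algebra K R]

/-- the generic curve -/
noncomputable def crv {n ℓ : ℕ} (Y : Fin ℓ → R) (i : Fin n) : Polynomial R :=
  ∑ j, Polynomial.C (Y j) * Polynomial.X ^ (((i : ℕ) + 1) * ((j : ℕ) + 1))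

theorem cD_crv {n ℓ : ℕ} (D : Derivation K R R) (Y : Fin ℓ → R) (i : Fin n) :
    cD D (crv Y i) =
      ∑ j, Polynomial.C (D (Y j)) * Polynomial.X ^ (((i : ℕ) + 1) * ((j : ℕ) + 1)) := by
  unfold crv
  rw [map_sum]
  exact Finset.sum_congr rfl fun j _ => cD_C_mul_X_pow D _ _

theorem natDegree_curve {ℓ : ℕ} (δ : Fin ℓ → R) (e : Fin ℓ) (he : δ e ≠ 0)
    (h : ∀ j, e < j → δ j = 0) (i : ℕ) :
    (∑ j, Polynomial.C (δ j) * Polynomial.X ^ ((i + 1) * ((j : ℕ) + 1))) ≠ 0 ∧
    (∑ j, Polynomial.C (δ j) * Polynomial.X ^ ((i + 1) * ((j : ℕ) + 1))).natDegree =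
      ((e : ℕ) + 1) * (i + 1) := by
  classical
  set P := ∑ j, Polynomial.C (δ j) * Polynomial.X ^ ((i + 1) * ((j : ℕ) + 1)) with hP
  have h1 : P.coeff (((e : ℕ) + 1) * (i + 1)) = δ e := by
    rw [hP, Polynomial.finset_sum_coeff, Finset.sum_eq_single e]
    · rw [Polynomial.coeff_C_mul, Polynomial.coeff_X_pow, if_pos (mul_comm _ _), mul_one]
    · intro j _ hj
      rw [Polynomial.coeff_C_mul, Polynomial.coeff_X_pow, if_neg, mul_zero]
      intro h2
      rw [mul_comm (i + 1)] at h2
      have h3 := Nat.eq_of_mul_eq_mul_right (Nat.succ_pos i) h2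
      apply hj
      ext
      omega
    · intro h2
      exact absurd (Finset.mem_univ _) h2
  have h0 : P ≠ 0 := by
    intro h2
    rw [h2, Polynomial.coeff_zero] at h1
    exact he h1.symm
  refine ⟨h0, le_antisymm ?_ ?_⟩
  · rw [hP]
    refine Polynomial.natDegree_sum_le_of_forall_le _ _ fun j _ => ?_
    by_cases hj : e < j
    · rw [h j hj, map_zero, zero_mul, Polynomial.natDegree_zero]
      exact Nat.zero_le _
    · refine (Polynomial.natDegree_C_mul_X_pow_le _ _).trans ?_
      rw [mul_comm]
      refine Nat.mul_le_mul_right _ ?_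
      have : (j : ℕ) ≤ (e : ℕ) := Fin.le_def.1 (not_lt.1 hj)
      omega
  · exact Polynomial.le_natDegree_of_ne_zero (by rw [h1]; exact he)

/-- A polynomial does not vanish at a point if there are enough derivations which kill its
coefficients and move the point. -/
theorem core0 {K R B : Type*} [CommRing K] [CommRing R] [IsDomain R] [CharZero R] [CommRing B]
    [IsDomain B] [Algebra K B] (φ : R →+* B) (hφ : Function.Injective φ) {n : ℕ} (p : Fin n → B)
    (G : Finset (Fin n)) (D : Fin G.card → Derivation K B B)
    (hM : (Matrix.of fun k q => D k (p (G.orderEmbOfFin rfl q))).det ≠ 0)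
    (F : MvPolynomial (Fin n) R) (hF : F ≠ 0) (hG : ∀ i, i ∉ G → MvPolynomial.pderiv i F = 0)
    (hD : ∀ k m, D k (φ (F.coeff m)) = 0) :
    MvPolynomial.eval₂ φ p F ≠ 0 := by
  classical
  induction hN : F.totalDegree using Nat.strong_induction_on generalizing F with
  | _ N ih =>
  intro h0
  set idx : Fin G.card → Fin n := fun q => G.orderEmbOfFin rfl q with hidx
  set a : Fin G.card → B := fun q =>
    MvPolynomial.eval₂ φ p (MvPolynomial.pderiv (idx q) F) with ha
  have hMa : (Matrix.of fun k q => D k (p (G.orderEmbOfFin rfl q))).mulVec a = 0 := by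
    funext k
    have h3 := chain_const (D k) φ p F (fun m => hD k m)
    rw [h0, map_zero] at h3
    rw [Pi.zero_apply]
    unfold Matrix.mulVec dotProduct
    rw [h3]
    have h4 : (∑ i, MvPolynomial.eval₂ φ p (MvPolynomial.pderiv i F) *
        D k (p i)) = ∑ i ∈ G, MvPolynomial.eval₂ φ p
          (MvPolynomial.pderiv i F) * D k (p i) := by
      symm
      refine Finset.sum_subset (Finset.subset_univ G) fun i _ hi => ?_
      rw [hG i hi, MvPolynomial.eval₂_zero, zero_mul]
    rw [h4]
    have h5 : G = Finset.univ.map (G.orderEmbOfFin rfl).toEmbedding := by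
      rw [Finset.map_orderEmbOfFin_univ]
    conv_rhs => rw [h5]
    rw [Finset.sum_map]
    refine Finset.sum_congr rfl fun q _ => ?_
    rw [ha]
    simp only [Matrix.of_apply]
    rw [mul_comm]
    rfl
  have ha0 : a = 0 := Matrix.eq_zero_of_mulVec_eq_zero hM hMa
  -- all derivatives vanish
  have hder : ∀ i, MvPolynomial.pderiv i F = 0 := by
    intro i
    by_cases hi : i ∈ G
    · by_contra hne
      obtain ⟨q, hq⟩ : ∃ q, idx q = i := by
        have h6 : i ∈ Set.range (G.orderEmbOfFin rfl) := by
          rw [Finset.range_orderEmbOfFin]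
          exact hi
        exact h6
      have h7 : a q = 0 := by rw [ha0]; rfl
      rw [ha] at h7
      simp only at h7
      rw [hq] at h7
      refine ih _ ?_ (MvPolynomial.pderiv i F) hne ?_ ?_ rfl h7
      · rw [← hN]
        -- degree drops
        have hpos : F.totalDegree ≠ 0 := by
          intro hz
          rw [MvPolynomial.totalDegree_eq_zero_iff_eq_C] at hz
          apply hne
          rw [hz, MvPolynomial.pderiv_C]
        have : (MvPolynomial.pderiv i F).totalDegree ≤ F.totalDegree - 1 := by
          rw [MvPolynomial.totalDegree, Finset.sup_le_iff]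
          intro m hm
          rw [MvPolynomial.mem_support_iff, MvPolynomial.coeff_pderiv] at hm
          have h8 : MvPolynomial.coeff (m + Finsupp.single i 1) F ≠ 0 := by
            intro h9
            rw [h9, zero_mul] at hm
            exact hm rfl
          have h9 := MvPolynomial.le_totalDegree (MvPolynomial.mem_support_iff.2 h8)
          rw [Finsupp.sum_add_index' (fun _ => rfl) (fun _ _ _ => rfl),
            Finsupp.sum_single_index rfl] at h9
          omega
        omega
      · intro i' hi'
        have h8 : MvPolynomial.pderiv i' (MvPolynomial.pderiv i F) =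
            MvPolynomial.pderiv i (MvPolynomial.pderiv i' F) := by
          ext m
          simp only [MvPolynomial.coeff_pderiv]
          rw [add_right_comm m (Finsupp.single i' 1) (Finsupp.single i 1)]
          by_cases hii : i = i'
          · subst hii
            rfl
          · rw [Finsupp.add_apply, Finsupp.add_apply, Finsupp.single_eq_of_ne hii,
              Finsupp.single_eq_of_ne (Ne.symm hii)]
            ring
        rw [h8, hG i' hi', map_zero]
      · intro k m
        rw [MvPolynomial.coeff_pderiv, map_mul, Derivation.leibniz, hD, smul_zero, add_zero]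
        have h8 : D k (φ ((m i : R) + 1)) = 0 := by
          rw [map_add, map_natCast, map_one, map_add, D k |>.map_one_eq_zero, add_zero]
          exact Derivation.map_natCast _ _
        rw [h8, smul_zero]
    · exact hG i hi
  -- the polynomial is constant
  have hconst : ∀ m, m ≠ 0 → F.coeff m = 0 := by
    intro m hm
    obtain ⟨i, hi⟩ : ∃ i, m i ≠ 0 := by
      by_contra h8
      push Not at h8
      exact hm (Finsupp.ext h8)
    have h9 := congrArg (MvPolynomial.coeff (m - Finsupp.single i 1)) (hder i)
    rw [MvPolynomial.coeff_pderiv, MvPolynomial.coeff_zero,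
      Finsupp.sub_add_single_one_cancel hi, mul_eq_zero] at h9
    rcases h9 with h9 | h9
    · exact h9
    · exfalso
      have : ((((m - Finsupp.single i 1 : Fin n →₀ ℕ) i + 1 : ℕ) : ℕ) : R) = 0 := by
        push_cast
        exact h9
      rw [Nat.cast_eq_zero] at this
      omega
  have hFC : F = MvPolynomial.C (F.coeff 0) := by
    ext m
    rw [MvPolynomial.coeff_C]
    split_ifs with h8
    · rw [← h8]
    · exact hconst m (Ne.symm h8)
  rw [hFC, MvPolynomial.eval₂_C] at h0
  apply hF
  rw [hFC, hφ (h0.trans (map_zero φ).symm), MvPolynomial.C_0]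

/-- A polynomial does not vanish on the generic curve if there are enough derivations which kill its
coefficients. -/
theorem core {n ℓ : ℕ} (Y : Fin ℓ → R) (G : Finset (Fin n))
    (e : Fin G.card → Fin ℓ) (he : StrictMono e) (D : Fin G.card → Derivation K R R)
    (h1 : ∀ k, D k (Y (e k)) ≠ 0) (h2 : ∀ k j, e k < j → D k (Y j) = 0)
    (F : MvPolynomial (Fin n) R) (hF : F ≠ 0) (hG : ∀ i, i ∉ G → MvPolynomial.pderiv i F = 0)
    (hD : ∀ k m, D k (F.coeff m) = 0) :
    MvPolynomial.eval₂ Polynomial.C (crv Y) F ≠ 0 := by
  refine core0 Polynomial.C Polynomial.C_injective (crv Y) G (fun k => cD (D k)) ?_ F hF hG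
    fun k m => by rw [cD_C, hD k m, Polynomial.C_0]
  refine alternant _ (fun k => (e k : ℕ) + 1)
    (fun q => ((G.orderEmbOfFin rfl q : Fin n) : ℕ) + 1) ?_ ?_ ?_ ?_
  · intro a b hab
    have := Fin.lt_def.1 (he hab)
    simp only
    omega
  · intro a b hab
    have := Fin.lt_def.1 ((G.orderEmbOfFin rfl).strictMono hab)
    simp only
    omega
  · intro k q
    rw [Matrix.of_apply, cD_crv]
    exact (natDegree_curve (fun j => D k (Y j)) (e k) (h1 k) (h2 k) _).1
  · intro k q
    rw [Matrix.of_apply, cD_crv]
    exact (natDegree_curve (fun j => D k (Y j)) (e k) (h1 k) (h2 k) _).2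

/-- A polynomial in one variable does not vanish on the generic curve. -/
theorem core1 {n ℓ : ℕ} (Y : Fin (ℓ + 1) → R) (hY : Y (Fin.last ℓ) ≠ 0) (G : Finset (Fin n))
    (hc : G.card = 1) (F : MvPolynomial (Fin n) R) (hF : F ≠ 0)
    (hG : ∀ i, i ∉ G → MvPolynomial.pderiv i F = 0) :
    MvPolynomial.eval₂ Polynomial.C (crv Y) F ≠ 0 := by
  classical
  refine core0 (K := R) Polynomial.C Polynomial.C_injective (crv Y) G
    (fun _ => Polynomial.derivative') ?_ F hF hG fun k m => by
      change Polynomial.derivative (Polynomial.C _) = 0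
      exact Polynomial.derivative_C
  obtain ⟨i, rfl⟩ := Finset.card_eq_one.1 hc
  have h1 := natDegree_curve Y (Fin.last ℓ) hY (fun j hj => absurd hj (not_lt.2 (Fin.le_last j)))
    (i : ℕ)
  have hu : Unique (Fin (Finset.card {i})) := by
    rw [Finset.card_singleton]
    infer_instance
  rw [Matrix.det_unique, Matrix.of_apply]
  have h2 : ∀ q, Finset.orderEmbOfFin {i} rfl q = i := fun q =>
    Finset.mem_singleton.1 (Finset.orderEmbOfFin_mem _ _ _)
  rw [h2]
  change Polynomial.derivative (crv Y i) ≠ 0
  intro h3
  have h4 := Polynomial.derivative_eq_zero.1 h3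
  unfold crv at h4
  rw [h1.2] at h4
  simp at h4

end Core

end Pool.Agent.Y653
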